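import Mathlib
import Pool.Agent.H26Z.LatAsym

/-!
# Q1 is false: the conjectured formula for the biased achievement numbers fails
-/

set_option autoImplicit false

open Filter Topology Pool.Agent.H26Z.Lat

namespace Pool.Agent.Results.MP_58ead2_co.AchieveFormulaFails

/-- For parallelogram lattices and for area-one lattices, and for all biases `17 ≤ m ≤ b`, there is
no `ε(N) → 0` with `A(N; X; m : b) = ⌊g_X(N) + ε(N)⌋` for all large `N`. -/
theorem result (X : LatticeClass)
    (hX : X = LatticeClass.areaOne ∨ X = LatticeClass.parallelogram) (m b : ℕ)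
    (hm : 17 ≤ m) (hb : m ≤ b) :
    ¬ ∃ ε : ℕ → ℝ, Tendsto ε atTop (𝓝 0) ∧
      ∀ᶠ N in atTop, (achieveNumber N X m b : ℤ) = ⌊gConj X m b N + ε N⌋ :=
  achieve_fails X hX m b hm hb

end Pool.Agent.Results.MP_58ead2_co.AchieveFormulaFails
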