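import Mathlib
import Pool.Agent.H26Z.LatAsym

/-!
# Q2 is false: the conjectured formula for the biased avoidance numbers fails
-/

set_option autoImplicit false

open Filter Topology Pool.Agent.H26Z.Lat

namespace Pool.Agent.Results.MP_58ead2_co.AvoidFormulaFails

/-- For parallelogram lattices and for area-one lattices, whichever player moves first, and for
all biases with `a ≤ f ≤ 2 a - 114` (for instance `a = f ≥ 114`), there is no `ε(N) → 0` with
`A(N; X; a : f; -) = ⌊h_X(N) + ε(N)⌋` for all large `N`. -/
theorem result (avoiderFirst : Bool) (X : LatticeClass)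
    (hX : X = LatticeClass.areaOne ∨ X = LatticeClass.parallelogram) (a f : ℕ)
    (haf : a ≤ f) (hfa : f + 114 ≤ 2 * a) :
    ¬ ∃ ε : ℕ → ℝ, Tendsto ε atTop (𝓝 0) ∧
      ∀ᶠ N in atTop, (avoidNumber avoiderFirst N X a f : ℤ) = ⌊hConj X a f N + ε N⌋ :=
  avoid_fails X hX avoiderFirst a f haf hfa

end Pool.Agent.Results.MP_58ead2_co.AvoidFormulaFails
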